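import Pool.Agent.H487Z.NonAm

set_option autoImplicit false

open Pool.Agent.H487Z

/-- There is an infinite, connected, locally finite, non-amenable graph (non-amenable both for the
counting measure and for the degree measure) on which the greedy random walk with the uniform rule
returns to its starting vertex infinitely often almost surely. -/
theorem Pool.Agent.Results.MP_4770bc_pr.ARecurrentExample.result :
    ∃ (V : Type) (G : SimpleGraph V) (v₀ : V), Infinite V ∧
      G.Connected ∧ (∀ v, (G.neighborSet v).Finite) ∧
      (∃ c : ℝ, 0 < c ∧ ∀ S : Finset V, c * (S.card : ℝ) ≤ (edgeBoundary G S).ncard ∧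
        c * ∑ v ∈ S, ((G.neighborSet v).ncard : ℝ) ≤ (edgeBoundary G S).ncard) ∧
      GRWRecurrent G v₀ :=
  nonamenable_example
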